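import Pool.Agent.Run7.h630.QC.Iface2

/-!
# The two models of the partition function
-/

open MeasureTheory Matrix Filter Topology
open Pool.Agent.H906R3.YM (UN mt)
open Pool.Agent.Run7.h630.R2 (zeta TwPair en Zt)
open Pool.Agent.Run7.h897.TW
open Pool.Agent.Run7.h897.FS (PM BM)
open Pool.Agent.Run7.h897.ST
open Run7.h4.YM (Link Site dir plaq SU)
open Run7.h630.MQ (om)

namespace Run7.h630.QC

set_option linter.unusedSectionVars false
set_option linter.style.haveILetI false

noncomputable section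

variable {N : ℕ} [MeasurableSpace (S4 N)] [BorelSpace (S4 N)] [MeasurableSpace (S6 N)]
  [BorelSpace (S6 N)]

lemma om_zeta [NeZero N] (j : ℕ) : om N 1 ^ j = zeta N ^ j := by
  unfold om zeta
  congr 2
  push_cast
  ring_nf

lemma om_k [NeZero N] (k : ℕ) : om N k = zeta N ^ k := exp_zeta k

lemma Sq_eq {a b l : ℕ} [NeZero N] [NeZero a] [NeZero b] [NeZero l] (k : ℕ)
    (q : ZMod a × ZMod b → ZMod N) (β : ℝ) (U : Link a b l → S4 N) :
    wS (Pool.Agent.Run7.h871.TC.wE N l k β) q (cfE U) = Real.exp (-(β * Sq k q U)) := by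
  unfold wS
  rw [← Real.exp_sum, ← Real.exp_add]
  congr 1
  have h1 : Sq k q U = ∑ x : Si a b l,
      (((N : ℝ) - (zz N k q (siE a b l x) 0 1 * trace (plaq U (siE a b l x) 0 1).1).re) +
      ((N : ℝ) - (trace (plaq U (siE a b l x) 0 2).1).re) +
      ((N : ℝ) - (trace (plaq U (siE a b l x) 0 3).1).re) +
      ((N : ℝ) - (trace (plaq U (siE a b l x) 1 2).1).re) +
      ((N : ℝ) - (trace (plaq U (siE a b l x) 1 3).1).re) +
      ((N : ℝ) - (zz N k q (siE a b l x) 2 3 * trace (plaq U (siE a b l x) 2 3).1).re)) := by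
    unfold Sq
    rw [← Equiv.sum_comp (siE a b l)]
    refine Finset.sum_congr rfl fun x _ => ?_
    rw [Fin.sum_univ_four, Ioi0, Ioi1, Ioi2, Ioi3]
    rw [Finset.sum_insert (by decide), Finset.sum_insert (by decide), Finset.sum_singleton,
      Finset.sum_insert (by decide), Finset.sum_singleton, Finset.sum_singleton,
      Finset.sum_empty]
    have t02 : zz N k q (siE a b l x) 0 2 = 1 := by simp [zz, z0]
    have t03 : zz N k q (siE a b l x) 0 3 = 1 := by simp [zz, z0]
    have t12 : zz N k q (siE a b l x) 1 2 = 1 := by simp [zz, z0]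
    have t13 : zz N k q (siE a b l x) 1 3 = 1 := by simp [zz, z0]
    rw [t02, t03, t12, t13, one_mul, one_mul, one_mul, one_mul]
    ring
  have h2 : ∑ u : ZMod a × ZMod b,
      -bsE (Pool.Agent.Run7.h871.TC.wE N l k β) (q u) (cfE U) u =
      -(β * ∑ x : Si a b l,
        ((N : ℝ) - (zz N k q (siE a b l x) 0 1 * trace (plaq U (siE a b l x) 0 1).1).re)) := by
    rw [Finset.sum_neg_distrib, Fintype.sum_prod_type, Finset.mul_sum]
    congr 1
    rw [Fintype.sum_prod_type, Fintype.sum_prod_type]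
    refine Finset.sum_congr rfl fun u1 _ => Finset.sum_congr rfl fun u2 _ => ?_
    rw [Pool.Agent.Run7.h871.TC.bsE_eq]
    unfold Pool.Agent.Run7.h630.R2.baseE
    rw [Finset.mul_sum]
    refine Finset.sum_congr rfl fun y _ => ?_
    rw [plq_cfE, en_phi]
    congr 4
    unfold zz z0
    rw [if_pos (by decide), if_pos ⟨rfl, rfl⟩, om_zeta]
    rfl
  rw [h2, Pool.Agent.Run7.h871.TC.nbE_eq, h1]
  unfold Pool.Agent.Run7.h630.R2.nonbase
  rw [← neg_add, ← mul_add, ← Finset.sum_add_distrib]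
  congr 2
  refine Finset.sum_congr rfl fun x _ => ?_
  rw [plq_cfE, plq_cfE, plq_cfE, plq_cfE, plq_cfE, en_phi, en_phi, en_phi, en_phi, en_phi]
  have t23 : zz N k q (siE a b l x) 2 3 = if x.2 = 0 then zeta N ^ k else 1 := by
    unfold zz z0
    rw [if_pos (by decide), if_neg (by decide)]
    by_cases h3 : x.2 = 0
    · rw [if_pos ⟨rfl, rfl, h3⟩, if_pos h3, om_k]
    · rw [if_neg (fun h => h3 h.2.2), if_neg h3]
  rw [t23]
  ring

/-- **The two models of the partition function.** -/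
theorem t_Q13 : S_Q13 := by
  intro N n L l k _ _ _ _ _ _ _ _ μ _ _ β
  haveI := mu6_prob μ
  rw [← Pool.Agent.Run7.h871.TC.ZE_eq_Zt]
  have h1 : ∀ U : Pool.Agent.Run7.h897.TW.Lk n L l → S6 N,
      wtE (Pool.Agent.Run7.h871.TC.wE N l k β) U = ∑ s : ZMod n × ZMod L → ZMod N,
        wS (Pool.Agent.Run7.h871.TC.wE N l k β) s U := by
    intro U
    unfold wtE wS
    rw [← Finset.mul_sum, Finset.prod_univ_sum]
    rw [Fintype.piFinset_univ]
  unfold ZE
  simp only [h1]
  have hbm : ∀ s : ZMod n × ZMod L → ZMod N,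
      BM fun U : Pool.Agent.Run7.h897.TW.Lk n L l → S6 N =>
        wS (Pool.Agent.Run7.h871.TC.wE N l k β) s U := fun s =>
    wS_bm (Pool.Agent.Run7.h871.TC.wE_bd β) _
  rw [integral_finsetSum _ fun s _ => (hbm s).int]
  unfold Zs
  refine Finset.sum_congr rfl fun s _ => ?_
  rw [Run7.h630.WL.int_cf μ (hbm s).1]
  refine integral_congr_ae (Eventually.of_forall fun U => ?_)
  exact (Sq_eq k s β U).symm

end

end Run7.h630.QC
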