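import Pool.Agent.Run7.h630.QC.Iface2
import Pool.Agent.Run7.h897.TW.Fou

/-!
# The criterion implies the mass gap
-/

open MeasureTheory Matrix Filter Topology
open Pool.Agent.H906R3.YM (UN mt)
open Pool.Agent.Run7.h897 (TW.XT TW.rate TW.Cn TW.CrS TW.Ls TW.Lk TW.LkZ TW.perZ TW.Lc TW.sg)
open Pool.Agent.Run7.h897.FS (PM BM)
open Pool.Agent.Run7.h897.ST (S4 S6 phi phi_cont phi_symm_cont mu6 mu6_haar mu6_prob cfE cfE_mp
  act_eq siE lkE)
open Pool.Agent.Run7.h871.TC (wE)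
open Run7.h4.YM Run7.h630.WL

namespace Run7.h630.QC

set_option linter.unusedSectionVars false
set_option linter.style.haveILetI false

noncomputable section

section

variable {N b l : ℕ}

/-- extension of a slice configuration -/
def ext (x : TW.Ls b l → S6 N) : TW.LkZ l → S6 N := fun e =>
  Fin.cases (motive := fun _ => S6 N) 1 (fun j => x ((((e.1.1.2 : ℤ) : ZMod b), e.1.2), j)) e.2

lemma ext_cont : Continuous (ext : (TW.Ls b l → S6 N) → TW.LkZ l → S6 N) := by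
  refine continuous_pi fun e => ?_
  obtain ⟨v, i⟩ := e
  refine Fin.cases ?_ (fun j => ?_) i
  · exact continuous_const
  · exact continuous_apply _

/-- the translation in the other model -/
def sh6 (t : ℕ) (V : TW.LkZ l → S6 N) : TW.LkZ l → S6 N :=
  fun e => V (((e.1.1.1 + t, e.1.1.2), e.1.2), e.2)

lemma F6_tshift (F : (LinkZ l → SU N) → ℝ) (t : ℕ) (V : TW.LkZ l → S6 N) :
    F6 (fun V => F (tshift t V)) V = F6 F (sh6 t V) := rfl

lemma F6_slice {F : (LinkZ l → SU N) → ℝ} {R : ℕ} (hR : ∀ V V' : LinkZ l → SU N,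
    (∀ e : LinkZ l, e.1 ≠ 0 → e.2.1 = 0 → |e.2.2.1| ≤ R → V e = V' e) → F V = F V')
    {W W' : TW.LkZ l → S6 N} (h : ∀ e : TW.LkZ l, e.2 ≠ 0 → e.1.1.1 = 0 → |e.1.1.2| ≤ R →
      W e = W' e) : F6 F W = F6 F W' := by
  unfold F6
  refine hR _ _ fun e h1 h2 h3 => ?_
  rw [h (lz l e) h1 h2 h3]

variable {a : ℕ}

lemma ext_per {F : (LinkZ l → SU N) → ℝ} (hF : IsObs F) (U : TW.Lk a b l → S6 N) (t : ℕ) :
    F6 F (sh6 t (TW.perZ U)) =
      F6 F (ext (Pool.Agent.Run7.h897.FS.xs (TW.sg a b l) U (t : ZMod a))) := by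
  obtain ⟨-, R, hR⟩ := hF
  refine F6_slice hR fun e he2 he _ => ?_
  obtain ⟨⟨⟨x, y⟩, v⟩, i⟩ := e
  simp only at he he2
  subst he
  revert he2
  refine Fin.cases (fun h => absurd rfl h) (fun j _ => ?_) i
  unfold ext sh6 TW.perZ
  simp only [zero_add, Int.cast_natCast]
  rfl

lemma sh6_zero (V : TW.LkZ l → S6 N) : sh6 0 V = V := by
  funext e
  unfold sh6
  simp

lemma ext_per0 {F : (LinkZ l → SU N) → ℝ} (hF : IsObs F) (U : TW.Lk a b l → S6 N) :
    F6 F (TW.perZ U) = F6 F (ext (Pool.Agent.Run7.h897.FS.xs (TW.sg a b l) U 0)) := by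
  have := ext_per hF U 0
  rw [sh6_zero, Nat.cast_zero] at this
  exact this

/-- locality -/
lemma ext_lc {F : (LinkZ l → SU N) → ℝ} {R : ℕ} (hR : ∀ V V' : LinkZ l → SU N,
    (∀ e : LinkZ l, e.1 ≠ 0 → e.2.1 = 0 → |e.2.2.1| ≤ R → V e = V' e) → F V = F V')
    (hc : 2 * R + 1 < b) :
    TW.Lc (((R + 1 : ℕ) : ZMod b)) fun x : TW.Ls b l → S6 N => F6 F (ext x) := by
  intro x x' h
  refine F6_slice hR fun e he2 he hle => ?_
  obtain ⟨⟨⟨y0, y⟩, v⟩, i⟩ := e
  simp only at he he2 hle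
  revert he2
  refine Fin.cases (fun h => absurd rfl h) (fun j _ => ?_) i
  change x ((((y : ℤ) : ZMod b), v), j) = x' ((((y : ℤ) : ZMod b), v), j)
  refine h _ ?_
  change ((y : ℤ) : ZMod b) ≠ ((R + 1 : ℕ) : ZMod b)
  intro heq
  have h2 : (((R + 1 : ℕ) : ℤ) : ZMod b) = ((y : ℤ) : ZMod b) := by
    rw [heq]; push_cast; rfl
  have h3 := (ZMod.intCast_eq_intCast_iff_dvd_sub _ _ b).1 h2.symm
  have h4 := abs_le.1 hle
  have h5 := Int.le_of_dvd (by push_cast; linarith [h4.2]) h3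
  push_cast at h5
  have h6 : (2 * R + 1 : ℤ) < b := by exact_mod_cast hc
  linarith [h4.1]

end

lemma tshift_cont {N l : ℕ} (t : ℕ) : Continuous (tshift t : (LinkZ l → SU N) → LinkZ l → SU N) :=
  continuous_pi fun _ => continuous_apply _

lemma diag {N l k : ℕ} [NeZero l] [MeasurableSpace (SU N)] {μ : Measure (SU N)} {β : ℝ}
    {ν : Measure (LinkZ l → SU N)} (hν : IsLimit k μ β ν) (F : (LinkZ l → SU N) → ℝ)
    (hF : Continuous F) :
    Tendsto (fun q : ℕ => expect μ k β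
      fun U : Link (2 * (q + 1)) (2 * (q + 1)) l → SU N => F (per U)) atTop
      (𝓝 (∫ V, F V ∂ν)) :=
  (hν.lim F hF).comp (tendsto_atTop_diagonal : Tendsto (fun q : ℕ => (q, q)) atTop atTop)

/-- **The criterion implies the existence of the limit and the gap.** -/
theorem t_Q16 : S_Q16 := by
  intro N l k _ _ hN hk _ _ _ _ μ _ _ β m a ha s hs0 hs hsm hcr
  haveI := mu6_prob μ
  haveI := mu6_haar μ
  haveI := Pool.Agent.Run7.h897.ST.right_inv'' (mu6 μ)
  haveI := Pool.Agent.Run7.h897.ST.inv_inv'' (mu6 μ)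
  have hz := Pool.Agent.Run7.h871.UP.zc_cn (N := N) (l := l) (k := k) β
  refine ⟨exists_limit μ k β (cau μ hz ha hs0 hs hcr), fun ν hν => ?_⟩
  intro F F' hO hO' C C' hC hC' t ht
  have hC0 : 0 ≤ C := (abs_nonneg _).trans (hC fun _ => 1)
  have hC0' : 0 ≤ C' := (abs_nonneg _).trans (hC' fun _ => 1)
  have hFc := hO.1
  have hFc' := hO'.1
  obtain ⟨R, hR⟩ := hO.2
  obtain ⟨R', hR'⟩ := hO'.2
  have hrate : s ^ ((t : ℝ) / (2 * a)) = Real.exp (-(m * t)) := by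
    rw [show (t : ℝ) / (2 * a) = 1 / (2 * a) * t by ring, Real.rpow_mul hs0.le, hsm,
      ← Real.exp_mul]
    congr 1
    ring
  refine le_of_forall_pos_le_add fun ε hε => ?_
  have hK : 0 < 2 * C * C' + 1 := by positivity
  obtain ⟨n0, hn0⟩ := Pool.Agent.Run7.h897.TW.true_lim (μ := mu6 μ)
    (Pool.Agent.Run7.h871.TC.wE_bd β) (Pool.Agent.Run7.h871.TC.wE_sy β) hz
    (fun ι _ _ p ε h1 h2 h3 h4 => Pool.Agent.Run7.h897.TW.fourier_sum ι p ε h1 h2 h3 h4)
    (fun a b _ _ s hs => Pool.Agent.Run7.h630.R2.dc_range s hs) ha hs0 hs hcr ht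
    (show 0 < ε / (2 * C * C' + 1) by positivity)
  have l1 := diag hν (fun V => F V * F' (tshift t V)) (hFc.mul (hFc'.comp (tshift_cont t)))
  have l2 := diag hν _ hFc
  have l3 := diag hν _ hFc'
  have l4 := (l1.sub (l2.mul l3)).abs
  refine le_of_tendsto l4 ((eventually_ge_atTop (max n0 (R + R'))).mono fun q hq => ?_)
  have q1 : n0 ≤ q := (le_max_left _ _).trans hq
  have q2 : R + R' ≤ q := (le_max_right _ _).trans hq
  set c := 2 * (q + 1) with hc
  have hm : ∀ {H : (LinkZ l → SU N) → ℝ}, Continuous H → ∀ {C : ℝ}, (∀ V, |H V| ≤ C) →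
      BM fun x : TW.Ls c l → S6 N => F6 H (ext x) := fun hH C hC =>
    ⟨((F6_cont hH).comp ext_cont).measurable, C, fun x => hC _⟩
  have hl : ∀ V V' : LinkZ l → SU N, (∀ e : LinkZ l, e.1 ≠ 0 → e.2.1 = 0 →
      |e.2.2.1| ≤ ((R + R' : ℕ) : ℤ) → V e = V' e) → F V = F V' := fun V V' h =>
    hR V V' fun e he he2 hle => h e he he2 (hle.trans (by push_cast; omega))
  have hl' : ∀ V V' : LinkZ l → SU N, (∀ e : LinkZ l, e.1 ≠ 0 → e.2.1 = 0 →
      |e.2.2.1| ≤ ((R + R' : ℕ) : ℤ) → V e = V' e) → F' V = F' V' := fun V V' h =>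
    hR' V V' fun e he he2 hle => h e he he2 (hle.trans (by push_cast; omega))
  have h1 := hn0 (q + 1) (by omega) c hc ((R + R' + 1 : ℕ) : ZMod c) (hm hFc hC) (hm hFc' hC')
    (ext_lc hl (by omega)) (ext_lc hl' (by omega)) (fun x => hC _) (fun x => hC' _) hC0 hC0'
  have e0 := expect_eq (n := 2 * (q + 1)) (L := 2 * (q + 1)) μ k β
    (F := fun V => F V * F' (tshift t V)) (hFc.mul (hFc'.comp (tshift_cont t)))
  rw [e0, expect_eq μ k β hFc, expect_eq μ k β hFc']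
  have e1 : ∀ U : TW.Lk c c l → S6 N, F6 (fun V => F V * F' (tshift t V)) (TW.perZ U) =
      F6 F (TW.perZ U) * F6 F' (sh6 t (TW.perZ U)) := fun U => rfl
  simp only [e1, ext_per0 hO, ext_per0 hO', ext_per hO']
  refine h1.trans ?_
  rw [hrate]
  have h2 : 2 * C * C' * (ε / (2 * C * C' + 1)) ≤ ε := by
    rw [mul_div_assoc', div_le_iff₀ hK]
    have : 0 ≤ 2 * C * C' := by positivity
    nlinarith
  rw [mul_add]
  linarith

end

end Run7.h630.QC
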