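import Pool.Agent.Run7.h630.QC.Q11
import Pool.Agent.Run7.h630.QC.Q13
import Pool.Agent.Run7.h630.QC.Gap
import Pool.Agent.Run7.h105.QC.Q3
import Pool.Agent.Run7.h115.QC.Q14
import Pool.Agent.Run7.h182.QC.Q7
import Pool.Agent.Run7.h270.QC.Q3b
import Pool.Agent.Run7.h270.QC.Q5a
import Pool.Agent.Run7.h270.QC.Q9
import Pool.Agent.Run7.h281.QC.Q5b
import Pool.Agent.Run7.h281.QC.Q5c
import Pool.Agent.Run7.h370.QC.Q4
import Pool.Agent.Run7.h370.QC.Q6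
import Pool.Agent.Run7.h771.QC.Q8
import Pool.Agent.Run7.h771.QC.Q10
import Pool.Agent.Run7.h863.QC.Q12
import Pool.Agent.Run7.h897.QC.Q15

/-!
# The mass gap, uniform in the lattice spacing, at polynomially large `β`
-/

open MeasureTheory Matrix Filter Topology
open Pool.Agent.Run7.h897.ST (S4 S6 mu6)
open Run7.h4.YM Run7.h630.WL

namespace Run7.h630.QC

theorem q1 : S_Q1 := Run7.h105.QC.t_Q1
theorem q2 : S_Q2 := Run7.h105.QC.t_Q2 q1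
theorem q3 : S_Q3 := Run7.h105.QC.t_Q3 q2
theorem q3b : S_Q3b := Run7.h270.QC.t_Q3b
theorem q4 : S_Q4 := Run7.h370.QC.t_Q4 q1
theorem q5a : S_Q5a := Run7.h270.QC.t_Q5a
theorem q5b : S_Q5b := Run7.h281.QC.t_Q5b q5a
theorem q5c : S_Q5c := Run7.h281.QC.t_Q5c q5a
theorem q6 : S_Q6 := Run7.h370.QC.t_Q6 q1 q3b
theorem q7 : S_Q7 := Run7.h182.QC.t_Q7 q2 q3 q3b q4 q5a q5b q6
theorem q8 : S_Q8 := Run7.h771.QC.t_Q8 q1 q5c
theorem q9 : S_Q9 := Run7.h270.QC.t_Q9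
theorem q10 : S_Q10 := Run7.h771.QC.t_Q10
theorem q11 : S_Q11 := t_Q11 q2 q5c q7 q8 q9 q10
theorem q12 : S_Q12 := Run7.h863.QC.t_Q12
theorem q13 : S_Q13 := t_Q13
theorem q14 : S_Q14 := Run7.h115.QC.t_Q14 q11 q12
theorem q15 : S_Q15 := Pool.Agent.Run7.h897.QC.t_Q15 q13 q14
theorem q16 : S_Q16 := t_Q16

/-- **The mass gap, uniform in the lattice spacing.** -/
theorem unif (N k : ℕ) (hN : 2 ≤ N) (hk : Nat.Coprime k N) [MeasurableSpace (SU N)]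
    [BorelSpace (SU N)] (μ : Measure (SU N)) [IsProbabilityMeasure μ] [μ.IsHaarMeasure]
    (m : ℝ) (hm0 : 0 < m) (hm : m < 2 * Real.pi / N) :
    ∃ p l₀ : ℕ, ∀ (l : ℕ) [NeZero l], l₀ ≤ l → ∀ β : ℝ, (l : ℝ) ^ p ≤ β →
      (∃ ν : Measure (LinkZ l → SU N), IsLimit k μ β ν) ∧
      ∀ ν : Measure (LinkZ l → SU N), IsLimit k μ β ν → HasGap ν (m / l) := by
  have : NeZero N := ⟨by omega⟩
  letI : MeasurableSpace (S6 N) := borel _
  haveI : BorelSpace (S6 N) := ⟨rfl⟩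
  obtain ⟨p, l₀, h⟩ := q15 N k hN hk μ m hm0 hm
  refine ⟨p, l₀, fun l _ hl β hβ => ?_⟩
  obtain ⟨a0, ha, s, hs0, hs, hsm, hcr⟩ := h l hl β hβ
  exact q16 N l k hN hk μ β (m / l) a0 ha s hs0 hs hsm hcr

end Run7.h630.QC
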