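import Pool.Agent.Run7.h370.QC.Bas
import Pool.Agent.Run7.h4.YM.SUN

/-!
# The energy for fixed centre elements
-/

open MeasureTheory Matrix Filter Topology
open scoped Matrix.Norms.Frobenius ComplexConjugate

namespace Run7.h630.QC

open Run7.h4.YM Run7.h630.MQ Run7.h370.MQ Run7.h370.QC

set_option linter.unusedSectionVars false
set_option linter.style.haveILetI false

noncomputable section

variable {N n L l : ℕ}

/-! ### continuity -/

lemma cont_list {X : Type*} [TopologicalSpace X] {ι : Type*} (f : ι → X → SU N)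
    (hf : ∀ i, Continuous (f i)) (s : List ι) : Continuous fun x => (s.map fun i => f i x).prod := by
  induction s with
  | nil => simpa using continuous_const
  | cons a s ih =>
    simp only [List.map_cons, List.prod_cons]
    exact (hf a).mul ih

lemma cont_Dr (α : Col N) (x : Site n L l) :
    Continuous fun U : Link n L l → SU N => Dr α U x := by
  unfold Dr MQ.lp lq
  exact ((cont_list (fun (t : ℕ) (U : Link n L l → SU N) => U (2, x + t • dir 2))
    (fun t => continuous_apply _) _).pow _).mul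
    ((cont_list (fun (t : ℕ) (U : Link n L l → SU N) => U (3, x + t • dir 3))
    (fun t => continuous_apply _) _).pow _)

lemma cont_Drv (α : Col N) (x : Site n L l) :
    Continuous fun U : Link n L l → SU N => (Dr α U x).1 :=
  continuous_subtype_val.comp (cont_Dr α x)

lemma cont_plaq (x : Site n L l) (i j : Fin 4) :
    Continuous fun U : Link n L l → SU N => plaq U x i j := by
  have hl : ∀ e : Link n L l, Continuous fun U : Link n L l → SU N => U e := fun e =>
    continuous_apply e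
  unfold plaq
  exact (((hl _).mul (hl _)).mul (hl _).inv).mul (hl _).inv

lemma cont_plaqv (x : Site n L l) (i j : Fin 4) :
    Continuous fun U : Link n L l → SU N => (plaq U x i j).1 :=
  continuous_subtype_val.comp (cont_plaq x i j)

lemma cont_link (e : Link n L l) : Continuous fun U : Link n L l → SU N => (U e).1 :=
  continuous_subtype_val.comp (continuous_apply e)

lemma cont_Fc (k : ℕ) (q : ZMod n × ZMod L → ZMod N) (x : Site n L l) (i j : Fin 4) :
    Continuous fun U : Link n L l → SU N => Fc k q U x i j := by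
  unfold Fc
  exact ((cont_plaqv x i j).const_smul (zz N k q x i j)).sub continuous_const

lemma cont_Sq [NeZero n] [NeZero L] [NeZero l] (k : ℕ) (q : ZMod n × ZMod L → ZMod N) :
    Continuous fun U : Link n L l → SU N => Sq k q U := by
  unfold Sq
  refine continuous_finsetSum _ fun x _ => continuous_finsetSum _ fun i _ =>
    continuous_finsetSum _ fun j _ => continuous_const.sub ?_
  exact Complex.continuous_re.comp (continuous_const.mul (cont_plaqv x i j).matrix_trace)

lemma cont_ss [NeZero n] [NeZero L] [NeZero l] (k : ℕ) (q : ZMod n × ZMod L → ZMod N) :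
    Continuous fun U : Link n L l → SU N => ss k q U :=
  Real.continuous_sqrt.comp (continuous_const.mul (cont_Sq k q))

lemma cont_ph2 (k : ℕ) (q : ZMod n × ZMod L → ZMod N) (α : Col N) (i j : Fin 4)
    (x : Site n L l) : Continuous fun U : Link n L l → SU N => ph2 k q α U i j x := by
  unfold ph2
  exact ((cont_Drv α x).mul (cont_Fc k q x i j)).matrix_trace

lemma cont_ps (k : ℕ) (q : ZMod n × ZMod L → ZMod N) (α : Col N) (i j : Fin 4)
    (x : Site n L l) : Continuous fun U : Link n L l → SU N => ps k q α U i j x := by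
  unfold ps
  split_ifs
  · exact Complex.continuous_conj.comp (cont_ph2 k q α i j x)
  · exact (Complex.continuous_conj.comp (cont_ph2 k q α j i x)).neg
  · exact continuous_const

lemma cont_nbs (k : ℕ) (α : Col N) (j : Fin 4) (x : Site n L l) {X : Type*}
    [TopologicalSpace X] {h : X → Site n L l → ℂ} (hh : ∀ y, Continuous fun v => h v y) :
    Continuous fun v => nbs k α j (h v) x := by
  unfold nbs
  exact (continuous_const.mul (hh _)).sub (hh _)

lemma cont_pot [NeZero n] [NeZero L] [NeZero l] (k : ℕ) (q : ZMod n × ZMod L → ZMod N)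
    (α : Col N) (j : Fin 4) (x : Site n L l) :
    Continuous fun U : Link n L l → SU N => pot k α (ps k q α U) j x := by
  have h1 : Continuous fun U : Link n L l → SU N =>
      (fun x => ∑ i : Fin 4, nbs k α i (ps k q α U i j) x : Site n L l → ℂ) := by
    refine continuous_pi fun y => continuous_finsetSum _ fun i _ => ?_
    exact cont_nbs k α i y fun z => cont_ps k q α i j z
  have h2 : Continuous (Gr n L l k α) := LinearMap.continuous_of_finiteDimensional _
  exact (continuous_apply x).comp (h2.comp h1)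

lemma cont_pr {X : Type*} [TopologicalSpace X] {f : X → Mt N} (hf : Continuous f) :
    Continuous fun v => pr (f v) := by
  unfold pr
  have h1 : Continuous fun v => f v - (f v)ᴴ := hf.sub hf.matrix_conjTranspose
  exact (h1.const_smul (1 / 2 : ℂ)).sub ((h1.matrix_trace.div_const _).smul continuous_const)

lemma cont_Kf [NeZero N] [NeZero n] [NeZero L] [NeZero l] (k : ℕ)
    (q : ZMod n × ZMod L → ZMod N) (e : Link n L l) :
    Continuous fun U : Link n L l → SU N => Kf k q U e := by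
  unfold Kf Ka
  refine cont_pr (continuous_finsetSum _ fun α _ => ?_)
  exact (continuous_const.mul (cont_pot k q α e.1 e.2)).smul (cont_Drv α e.2)

lemma cont_dSq [NeZero N] [NeZero n] [NeZero L] [NeZero l] (k : ℕ)
    (q : ZMod n × ZMod L → ZMod N) {X : (Link n L l → SU N) → Link n L l → Mt N}
    (hX : ∀ e, Continuous fun U => X U e) :
    Continuous fun U : Link n L l → SU N => dSq k q U (X U) := by
  unfold dSq dp
  refine (continuous_finsetSum _ fun x _ => continuous_finsetSum _ fun i _ =>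
    continuous_finsetSum _ fun j _ => ?_).neg
  refine Complex.continuous_re.comp (continuous_const.mul (Continuous.matrix_trace ?_))
  have hl := fun e => cont_link (N := N) (n := n) (L := L) (l := l) e
  refine Continuous.sub (Continuous.mul (Continuous.add (hX _) ?_) (cont_plaqv x i j))
    (Continuous.mul (cont_plaqv x i j) (Continuous.add ?_ (hX _)))
  · exact ((hl _).mul (hX _)).mul (hl _).matrix_conjTranspose
  · exact ((hl _).mul (hX _)).mul (hl _).matrix_conjTranspose

/-! ### the projection -/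

lemma pr_sum {ι : Type*} (s : Finset ι) (f : ι → Mt N) :
    pr (∑ i ∈ s, f i) = ∑ i ∈ s, pr (f i) := by
  classical
  induction s using Finset.induction_on with
  | empty =>
    rw [Finset.sum_empty, Finset.sum_empty]
    have := pr_sub (0 : Mt N) 0
    rw [sub_zero, sub_self] at this
    exact this
  | insert a s ha ih => rw [Finset.sum_insert ha, Finset.sum_insert ha, pr_add, ih]

lemma pr_skt [NeZero N] (A : Mt N) : SkT (pr A) := by
  refine ⟨?_, trace_pr A⟩
  unfold pr
  have h1 : (A - Aᴴ)ᴴ = -(A - Aᴴ) := by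
    rw [conjTranspose_sub, conjTranspose_conjTranspose]
    abel
  have h2 : star (trace (A - Aᴴ)) = -trace (A - Aᴴ) := by
    rw [← trace_conjTranspose, h1, trace_neg]
  have h3 : star (trace (A - Aᴴ) / (2 * N)) = -(trace (A - Aᴴ) / (2 * N)) := by
    rw [star_div₀, h2]
    simp
    ring
  rw [conjTranspose_sub, conjTranspose_smul, conjTranspose_smul, h1, h3, conjTranspose_one]
  have h4 : star (1 / 2 : ℂ) = 1 / 2 := by simp
  rw [h4, smul_neg, neg_smul]
  abel

lemma norm_pr_le [NeZero N] (A : Mt N) : ‖pr A‖ ≤ (1 + N) * ‖A‖ := by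
  rw [pr_eq]
  have hN : (0 : ℝ) < N := by exact_mod_cast Nat.pos_of_neZero N
  have h1 : ‖(1 / 2 : ℂ) • (A - Aᴴ)‖ ≤ ‖A‖ := by
    rw [norm_smul]
    have := norm_sub_le A Aᴴ
    rw [frobenius_norm_conjTranspose] at this
    have h2 : ‖(1 / 2 : ℂ)‖ = 1 / 2 := by simp
    rw [h2]
    linarith
  have h2 : ‖sc A • (1 : Mt N)‖ ≤ N * ‖A‖ := by
    rw [norm_smul]
    have h3 : ‖sc A‖ ≤ ‖A‖ := by
      refine (norm_sc_le A).trans ?_
      rw [div_le_iff₀ hN, mul_comm]
      exact norm_tr_le A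
    have h4 : ‖(1 : Mt N)‖ ≤ N := norm_SU_le (1 : SU N)
    calc ‖sc A‖ * ‖(1 : Mt N)‖ ≤ ‖A‖ * N :=
          mul_le_mul h3 h4 (norm_nonneg _) (norm_nonneg _)
      _ = _ := mul_comm _ _
  have := norm_sub_le ((1 / 2 : ℂ) • (A - Aᴴ)) (sc A • (1 : Mt N))
  linarith

lemma norm_Eu (a b : Fin N) : ‖(Eu a b : Mt N)‖ ≤ 1 := by
  refine abs_le_of_sq_le_sq' ?_ zero_le_one |>.2
  rw [norm_sq_eq]
  unfold Eu
  have : ∀ i j, ‖(Matrix.single a b (1 : ℂ) : Mt N) i j‖ ^ 2 =
      if a = i ∧ b = j then 1 else 0 := by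
    intro i j
    rw [Matrix.single_apply]
    split_ifs <;> simp
  simp only [this]
  rw [Finset.sum_eq_single a]
  · rw [Finset.sum_eq_single b]
    · simp
    · intro j _ hj
      rw [if_neg]
      rintro ⟨-, h⟩
      exact hj h.symm
    · simp
  · intro i _ hi
    refine Finset.sum_eq_zero fun j _ => ?_
    rw [if_neg]
    rintro ⟨h, -⟩
    exact hi h.symm
  · simp

lemma norm_IEu (a b : Fin N) : ‖(Complex.I • Eu a b : Mt N)‖ ≤ 1 := by
  rw [norm_smul, Complex.norm_I, one_mul]
  exact norm_Eu a b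

/-! ### the divergence of the leading part -/

/-- the divergence -/
def dv (Kd : (Link n L l → SU N) → Link n L l → Mt N → Mt N) (U : Link n L l → SU N)
    (e : Link n L l) : ℝ :=
  ∑ a : Fin N, ∑ b : Fin N,
    (((Kd U e (pr (Eu a b))) a b).re + ((Kd U e (pr (Complex.I • Eu a b))) a b).im)

lemma dv_Kl [NeZero N] (hQ9 : S_Q9) (k : ℕ) (U : Link n L l → SU N) (e : Link n L l) :
    dv (fun U e A => Kl k U e A) U e = ∑ α ∈ (Finset.univ : Finset (Col N)).erase (0, 0),
      (gg k α e.1 e.2).re * (1 - ‖trace (Dr α U e.2).1‖ ^ 2 / N ^ 2) := by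
  unfold dv Kl
  simp only [pr_sum, Matrix.sum_apply, Complex.re_sum, Complex.im_sum, ← Finset.sum_add_distrib]
  rw [Finset.sum_congr rfl fun a _ => Finset.sum_comm, Finset.sum_comm]
  refine Finset.sum_congr rfl fun α _ => ?_
  exact hQ9 N (Dr α U e.2).1 (gg k α e.1 e.2) (Run7.h370.MQ.mul_star_self' _)

lemma norm_Kl_le [NeZero N] [NeZero n] [NeZero L] [NeZero l] (k : ℕ) {G : ℝ} (hG0 : 0 ≤ G)
    (hG : ∀ α : Col N, α ≠ (0, 0) → ∀ i (x : Site n L l), ‖gg k α i x‖ ≤ G)
    (U : Link n L l → SU N) (e : Link n L l) (A : Mt N) :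
    ‖Kl k U e A‖ ≤ (1 + N) * (N ^ 2 * (G * (N * (N * ‖A‖)) * N)) := by
  unfold Kl
  have hN : (1 : ℝ) ≤ N := by exact_mod_cast Nat.pos_of_neZero N
  refine (norm_pr_le _).trans (mul_le_mul_of_nonneg_left ?_ (by positivity))
  refine (norm_sum_le _ _).trans ?_
  have h1 : ∀ α ∈ (Finset.univ : Finset (Col N)).erase (0, 0),
      ‖(-(1 / N) * gg k α e.1 e.2 * conj (trace ((Dr α U e.2).1 * A)) : ℂ) • (Dr α U e.2).1‖ ≤
        G * (N * (N * ‖A‖)) * N := by
    intro α hα
    have hα' := Finset.ne_of_mem_erase hα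
    rw [norm_smul, norm_mul, norm_mul, RCLike.norm_conj]
    have h2 : ‖(-(1 / N) : ℂ)‖ ≤ 1 := by
      rw [norm_neg, norm_div, norm_one, Complex.norm_natCast, div_le_one (by linarith)]
      exact hN
    have h3 : ‖trace ((Dr α U e.2).1 * A)‖ ≤ N * (N * ‖A‖) := by
      refine (norm_tr_mul_le _ _).trans (mul_le_mul_of_nonneg_left ?_ (by positivity))
      exact mul_le_mul_of_nonneg_right (norm_SU_le _) (norm_nonneg _)
    have h4 : ‖(-(1 / N) : ℂ)‖ * ‖gg k α e.1 e.2‖ ≤ G := by
      calc ‖(-(1 / N) : ℂ)‖ * ‖gg k α e.1 e.2‖ ≤ 1 * G :=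
            mul_le_mul h2 (hG α hα' _ _) (norm_nonneg _) zero_le_one
        _ = G := one_mul _
    exact mul_le_mul (mul_le_mul h4 h3 (norm_nonneg _) hG0) (norm_SU_le _)
      (norm_nonneg _) (by positivity)
  refine (Finset.sum_le_sum h1).trans ?_
  rw [Finset.sum_const, nsmul_eq_mul]
  refine mul_le_mul_of_nonneg_right ?_ (by positivity)
  have : ((Finset.univ : Finset (Col N)).erase (0, 0)).card ≤ N ^ 2 := by
    refine (Finset.card_le_card (Finset.erase_subset _ _)).trans ?_
    rw [Finset.card_univ, Fintype.card_prod, Fintype.card_fin, sq]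
  exact_mod_cast this

lemma norm_tr_SU (g : SU N) : ‖trace g.1‖ ≤ N := by
  unfold trace
  refine (norm_sum_le _ _).trans ?_
  refine (Finset.sum_le_sum fun i _ =>
    entry_norm_bound_of_unitary (mem_specialUnitaryGroup_iff.1 g.2).1 i i).trans ?_
  simp

lemma card_link [NeZero n] [NeZero L] [NeZero l] :
    ((Finset.univ : Finset (Link n L l)).card : ℝ) = 4 * vol n L l := by
  rw [← card_site (n := n) (L := L) (l := l), Finset.card_univ, Fintype.card_prod,
    Fintype.card_fin, Finset.card_univ]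
  push_cast
  ring

/-- the divergence of `Kf` -/
lemma dv_bound [NeZero N] [NeZero n] [NeZero L] [NeZero l] (hQ9 : S_Q9) {k : ℕ}
    {q : ZMod n × ZMod L → ZMod N} {Kd : (Link n L l → SU N) → Link n L l → Mt N → Mt N}
    {U : Link n L l → SU N} {c2 c5 c8 : ℝ} (hc2 : 0 ≤ c2) (hc5 : 0 ≤ c5) (hc8 : 0 ≤ c8)
    (h2 : ∀ (α : Col N) (x : Site n L l), α ≠ (0, 0) → ‖trace (Dr α U x).1‖ ≤ c2 * ss k q U)
    (h5 : ∀ α : Col N, α ≠ (0, 0) →
      ∑ x : Site n L l, ∑ i : Fin 4, gg k α i x = ((3 * vol n L l : ℝ) : ℂ))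
    (h5' : ∀ α : Col N, α ≠ (0, 0) → ∀ i (x : Site n L l), ‖gg k α i x‖ ≤ c5)
    (h8 : ∀ (e : Link n L l) (A : Mt N), SkT A →
      ‖Kd U e A - Kl k U e A‖ ≤ c8 * ss k q U * ‖A‖) :
    |∑ e, dv Kd U e - 3 * vol n L l * (N ^ 2 - 1)| ≤
      4 * vol n L l * (N ^ 2 * (2 * (c8 * (1 + N)) + c5 * c2)) * ss k q U := by
  have hN : (1 : ℝ) ≤ N := by exact_mod_cast Nat.pos_of_neZero N
  have hss := ss_nonneg k q U
  have hv : 0 ≤ vol n L l := zero_le_one.trans vol_ge.1
  -- the first difference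
  have e1 : ∀ e : Link n L l, |dv Kd U e - dv (fun U e A => Kl k U e A) U e| ≤
      N ^ 2 * (2 * (c8 * (1 + N))) * ss k q U := by
    intro e
    unfold dv
    rw [← Finset.sum_sub_distrib]
    have hh : ∀ A : Mt N, SkT A → ‖A‖ ≤ 1 + N → ∀ a b,
        ‖(Kd U e A - Kl k U e A) a b‖ ≤ c8 * (1 + N) * ss k q U := by
      intro A hA hA1 a b
      refine (norm_entry_le _ a b).trans ((h8 e A hA).trans ?_)
      have : c8 * ss k q U * ‖A‖ ≤ c8 * ss k q U * (1 + N) :=
        mul_le_mul_of_nonneg_left hA1 (by positivity)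
      linarith
    have hE1 : ∀ a b : Fin N, ‖pr (Eu a b : Mt N)‖ ≤ 1 + N := fun a b =>
      (norm_pr_le _).trans (by
        have := norm_Eu a b
        nlinarith)
    have hE2 : ∀ a b : Fin N, ‖pr (Complex.I • Eu a b : Mt N)‖ ≤ 1 + N := fun a b =>
      (norm_pr_le _).trans (by
        have := norm_IEu a b
        nlinarith)
    refine (Finset.abs_sum_le_sum_abs _ _).trans ?_
    have h1 : ∀ a ∈ (Finset.univ : Finset (Fin N)),
        |(∑ b : Fin N, (((Kd U e (pr (Eu a b))) a b).re +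
          ((Kd U e (pr (Complex.I • Eu a b))) a b).im)) -
        ∑ b : Fin N, (((Kl k U e (pr (Eu a b))) a b).re +
          ((Kl k U e (pr (Complex.I • Eu a b))) a b).im)| ≤
        N * (2 * (c8 * (1 + N)) * ss k q U) := by
      intro a _
      rw [← Finset.sum_sub_distrib]
      refine (Finset.abs_sum_le_sum_abs _ _).trans ?_
      have h1 : ∀ b ∈ (Finset.univ : Finset (Fin N)),
          |((Kd U e (pr (Eu a b))) a b).re + ((Kd U e (pr (Complex.I • Eu a b))) a b).im -
            (((Kl k U e (pr (Eu a b))) a b).re +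
              ((Kl k U e (pr (Complex.I • Eu a b))) a b).im)| ≤
          2 * (c8 * (1 + N)) * ss k q U := by
        intro b _
        have q1 := hh _ (pr_skt (Eu a b)) (hE1 a b) a b
        have q2 := hh _ (pr_skt (Complex.I • Eu a b)) (hE2 a b) a b
        have q3 := (Complex.abs_re_le_norm _).trans q1
        have q4 := (Complex.abs_im_le_norm _).trans q2
        rw [Matrix.sub_apply, Complex.sub_re] at q3
        rw [Matrix.sub_apply, Complex.sub_im] at q4
        have q5 := abs_add_le (((Kd U e (pr (Eu a b))) a b).re - ((Kl k U e (pr (Eu a b))) a b).re)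
          (((Kd U e (pr (Complex.I • Eu a b))) a b).im -
            ((Kl k U e (pr (Complex.I • Eu a b))) a b).im)
        rw [add_sub_add_comm]
        linarith
      refine (Finset.sum_le_sum h1).trans ?_
      rw [Finset.sum_const, Finset.card_univ, Fintype.card_fin, nsmul_eq_mul]
    refine (Finset.sum_le_sum h1).trans (le_of_eq ?_)
    rw [Finset.sum_const, Finset.card_univ, Fintype.card_fin, nsmul_eq_mul]
    ring
  -- the leading part
  have e2 : ∀ e : Link n L l, |dv (fun U e A => Kl k U e A) U e -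
      ∑ α ∈ (Finset.univ : Finset (Col N)).erase (0, 0), (gg k α e.1 e.2).re| ≤
      N ^ 2 * (c5 * c2) * ss k q U := by
    intro e
    rw [dv_Kl hQ9, ← Finset.sum_sub_distrib]
    refine (Finset.abs_sum_le_sum_abs _ _).trans ?_
    have h1 : ∀ α ∈ (Finset.univ : Finset (Col N)).erase (0, 0),
        |(gg k α e.1 e.2).re * (1 - ‖trace (Dr α U e.2).1‖ ^ 2 / N ^ 2) -
          (gg k α e.1 e.2).re| ≤ c5 * c2 * ss k q U := by
      intro α hα
      have hα' := Finset.ne_of_mem_erase hα
      have h1 : (gg k α e.1 e.2).re * (1 - ‖trace (Dr α U e.2).1‖ ^ 2 / N ^ 2) -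
          (gg k α e.1 e.2).re = -((gg k α e.1 e.2).re * (‖trace (Dr α U e.2).1‖ ^ 2 / N ^ 2)) := by
        ring
      rw [h1, abs_neg, abs_mul]
      have h3 := h2 α e.2 hα'
      have h4 := norm_tr_SU (Dr α U e.2)
      have h6 := norm_nonneg (trace (Dr α U e.2).1)
      have h7 : |‖trace (Dr α U e.2).1‖ ^ 2 / (N : ℝ) ^ 2| ≤ c2 * ss k q U := by
        rw [abs_of_nonneg (by positivity), div_le_iff₀ (by positivity)]
        nlinarith [mul_le_mul h3 h4 h6 (h6.trans h3), mul_nonneg (h6.trans h3)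
          (sub_nonneg.2 (show (N : ℝ) ≤ N ^ 2 by nlinarith))]
      calc |(gg k α e.1 e.2).re| * |‖trace (Dr α U e.2).1‖ ^ 2 / (N : ℝ) ^ 2| ≤
            c5 * (c2 * ss k q U) :=
            mul_le_mul ((Complex.abs_re_le_norm _).trans (h5' α hα' _ _)) h7 (abs_nonneg _) hc5
        _ = c5 * c2 * ss k q U := by ring
    refine (Finset.sum_le_sum h1).trans ?_
    rw [Finset.sum_const, nsmul_eq_mul]
    have h9 : 0 ≤ c5 * c2 * ss k q U := by positivity
    have : ((Finset.univ : Finset (Col N)).erase (0, 0)).card ≤ N ^ 2 := by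
      refine (Finset.card_le_card (Finset.erase_subset _ _)).trans ?_
      rw [Finset.card_univ, Fintype.card_prod, Fintype.card_fin, sq]
    have h10 : (((Finset.univ : Finset (Col N)).erase (0, 0)).card : ℝ) ≤ (N : ℝ) ^ 2 := by
      exact_mod_cast this
    calc (((Finset.univ : Finset (Col N)).erase (0, 0)).card : ℝ) * (c5 * c2 * ss k q U) ≤
          (N : ℝ) ^ 2 * (c5 * c2 * ss k q U) := mul_le_mul_of_nonneg_right h10 h9
      _ = _ := by ring
  have e3 : ∑ e : Link n L l, ∑ α ∈ (Finset.univ : Finset (Col N)).erase (0, 0),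
      (gg k α e.1 e.2).re = 3 * vol n L l * (N ^ 2 - 1) := by
    rw [Finset.sum_comm]
    have h1 : ∀ α ∈ (Finset.univ : Finset (Col N)).erase (0, 0),
        ∑ e : Link n L l, (gg k α e.1 e.2).re = 3 * vol n L l := by
      intro α hα
      have h3 := congrArg Complex.re (h5 α (Finset.ne_of_mem_erase hα))
      rw [Complex.ofReal_re] at h3
      rw [← h3, Fintype.sum_prod_type, Finset.sum_comm]
      simp only [Complex.re_sum]
    rw [Finset.sum_congr rfl h1, Finset.sum_const, Finset.card_erase_of_mem (Finset.mem_univ _),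
      Finset.card_univ, Fintype.card_prod, Fintype.card_fin, nsmul_eq_mul,
      Nat.cast_sub (Nat.one_le_iff_ne_zero.2 (mul_ne_zero (NeZero.ne N) (NeZero.ne N)))]
    push_cast
    ring
  rw [← e3, ← Finset.sum_sub_distrib]
  refine (Finset.abs_sum_le_sum_abs _ _).trans ?_
  have e4 : ∀ e ∈ (Finset.univ : Finset (Link n L l)),
      |dv Kd U e - ∑ α ∈ (Finset.univ : Finset (Col N)).erase (0, 0), (gg k α e.1 e.2).re| ≤
      (N ^ 2 * (2 * (c8 * (1 + N)) + c5 * c2)) * ss k q U := by
    intro e _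
    refine (abs_sub_le _ (dv (fun U e A => Kl k U e A) U e) _).trans ?_
    have := e1 e
    have := e2 e
    nlinarith
  refine (Finset.sum_le_sum e4).trans (le_of_eq ?_)
  rw [Finset.sum_const, nsmul_eq_mul, card_link]
  ring

/-! ### the estimate -/

lemma num1 {β S : ℝ} (hβ : 1 ≤ β) (hS : 0 ≤ S) :
    Real.sqrt (2 * S) ≤ 4 / Real.sqrt β * (1 + (β * S) ^ 3) ∧
    β * Real.sqrt (2 * S) ^ 3 ≤ 4 / Real.sqrt β * (1 + (β * S) ^ 3) := by
  have hb : 0 < Real.sqrt β := Real.sqrt_pos.2 (by linarith)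
  set y : ℝ := Real.sqrt β * Real.sqrt (2 * S) with hy
  have hy0 : 0 ≤ y := by positivity
  have h1 : y ^ 2 = 2 * (β * S) := by
    rw [hy, mul_pow, Real.sq_sqrt (by linarith), Real.sq_sqrt (by linarith)]
    ring
  have h2 : (β * S) ^ 3 = (y ^ 2) ^ 3 / 8 := by
    rw [h1]
    ring
  have h3 : Real.sqrt (2 * S) = y / Real.sqrt β := by
    rw [hy]
    field_simp
  have hb2 : β = Real.sqrt β ^ 2 := (Real.sq_sqrt (by linarith)).symm
  have h4 : β * Real.sqrt (2 * S) ^ 3 = y ^ 3 / Real.sqrt β := by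
    rw [hy, eq_div_iff hb.ne']
    nth_rewrite 1 [hb2]
    ring
  rw [h4, h3, h2]
  have k1 : y ≤ 4 * (1 + (y ^ 2) ^ 3 / 8) := by
    have : 0 ≤ y ^ 2 := sq_nonneg y
    nlinarith [sq_nonneg (y - 1), mul_nonneg this (sq_nonneg (y ^ 2 - 1)),
      mul_nonneg (add_nonneg this zero_le_one) (sq_nonneg (y ^ 2 - 1))]
  have k2 : y ^ 3 ≤ 4 * (1 + (y ^ 2) ^ 3 / 8) := by
    nlinarith [sq_nonneg (y ^ 3 - 1)]
  constructor
  · calc y / Real.sqrt β ≤ 4 * (1 + (y ^ 2) ^ 3 / 8) / Real.sqrt β :=
          div_le_div_of_nonneg_right k1 hb.le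
      _ = _ := by ring
  · calc y ^ 3 / Real.sqrt β ≤ 4 * (1 + (y ^ 2) ^ 3 / 8) / Real.sqrt β :=
          div_le_div_of_nonneg_right k2 hb.le
      _ = _ := by ring

theorem t_Q11 (hQ2 : S_Q2) (hQ5c : S_Q5c) (hQ7 : S_Q7) (hQ8 : S_Q8) (hQ9 : S_Q9)
    (hQ10 : S_Q10) : S_Q11 := by
  intro N _
  obtain ⟨C2, p2, hC2, h2⟩ := hQ2 N
  obtain ⟨C5, p5, hC5, h5⟩ := hQ5c N
  obtain ⟨C7, p7, hC7, h7⟩ := hQ7 N
  obtain ⟨C8, p8, hC8, h8⟩ := hQ8 N
  refine ⟨4 * (C7 + 4 * (N ^ 2 * (2 * (C8 * (1 + N)) + C5 * C2))), p2 + p5 + p7 + p8 + 1,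
    by positivity, ?_⟩
  intro n L l k _ _ _ hk _ _ μ _ _ q β hβ
  obtain ⟨Kd, hKd⟩ := h8 n L l k hk q
  set v := vol n L l with hv
  have hv1 : 1 ≤ v := vol_ge.1
  have hlv : (l : ℝ) ≤ v := vol_ge.2
  have hv0 : 0 ≤ v := zero_le_one.trans hv1
  -- boundedness of the action
  obtain ⟨M, hM⟩ : ∃ M : ℝ, ∀ U : Link n L l → SU N, ss k q U ≤ M := by
    obtain ⟨M, hM⟩ := isCompact_univ.exists_bound_of_continuousOn
      (cont_ss (N := N) (n := n) (L := L) (l := l) k q).continuousOn
    exact ⟨M, fun U => (le_abs_self _).trans (hM U (Set.mem_univ U))⟩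
  have hM0 : 0 ≤ M := (ss_nonneg k q 1).trans (hM 1)
  -- the Schwinger-Dyson equation
  have hg : ∀ α : Col N, α ≠ (0, 0) → ∀ i (x : Site n L l), ‖gg k α i x‖ ≤ C5 * v ^ p5 :=
    fun α hα => (h5 n L l k hk α hα).2.1
  set B : ℝ := (1 + N) * (N ^ 2 * (C5 * v ^ p5 * (N * N) * N)) + C8 * v ^ p8 * M with hB
  have hKdB : ∀ (U : Link n L l → SU N) (e : Link n L l) (A : Mt N), SkT A →
      ‖Kd U e A‖ ≤ B * ‖A‖ := by
    intro U e A hA
    have q1 := (hKd U e A hA).2
    have q2 := norm_Kl_le (N := N) k (G := C5 * v ^ p5) (by positivity) hg U e A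
    have q3 := norm_le_norm_sub_add (Kd U e A) (Kl k U e A)
    have q4 : C8 * v ^ p8 * ss k q U * ‖A‖ ≤ C8 * v ^ p8 * M * ‖A‖ := by
      have := hM U
      gcongr
    calc ‖Kd U e A‖ ≤ ‖Kd U e A - Kl k U e A‖ + ‖Kl k U e A‖ := q3
      _ ≤ C8 * v ^ p8 * M * ‖A‖ + (1 + N) * (N ^ 2 * (C5 * v ^ p5 * (N * (N * ‖A‖)) * N)) :=
          add_le_add (q1.trans q4) q2
      _ = B * ‖A‖ := by rw [hB]; ring
  obtain ⟨hmeas, hsd⟩ := hQ10 N n L l k μ q β (fun U => Kf k q U) Kd B
    (fun e => cont_Kf k q e) (fun U e => pr_skt _) fun U e A hA =>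
      ⟨(hKd U e A hA).1, hKdB U e A hA⟩
  change Measurable (fun U => ∑ e, dv Kd U e) at hmeas
  change ∫ U, (β * dSq k q U (Kf k q U) - ∑ e, dv Kd U e) *
      Real.exp (-(β * Sq k q U)) ∂(Measure.pi fun _ : Link n L l => μ) = 0 at hsd
  -- the pointwise estimates
  have hdv : ∀ U : Link n L l → SU N, |∑ e, dv Kd U e - 3 * v * (N ^ 2 - 1)| ≤
      4 * v * (N ^ 2 * (2 * (C8 * v ^ p8 * (1 + N)) + C5 * v ^ p5 * (C2 * v ^ p2))) *
        ss k q U := by
    intro U
    refine dv_bound hQ9 (by positivity) (by positivity) (by positivity) (fun α x hα => ?_)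
      (fun α hα => (h5 n L l k hk α hα).1) hg (fun e A hA => (hKd U e A hA).2)
    have h3 := h2 n L l k hk q U α (0, 0) x hα
    have h4 : (Dr ((0, 0) : Col N) U x).1 = 1 := by
      unfold Dr
      simp
    rw [h4, conjTranspose_one, mul_one] at h3
    refine h3.trans (mul_le_mul_of_nonneg_right ?_ (ss_nonneg k q U))
    gcongr
  have hvp : ∀ a : ℕ, a ≤ p2 + p5 + p7 + p8 + 1 → v ^ a ≤ v ^ (p2 + p5 + p7 + p8 + 1) :=
    fun a ha => pow_le_pow_right₀ hv1 ha
  set P := v ^ (p2 + p5 + p7 + p8 + 1) with hP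
  have hP0 : 0 ≤ P := by positivity
  have hpt : ∀ U : Link n L l → SU N, |(2 * β * Sq k q U - 3 * v * (N ^ 2 - 1)) -
      (β * dSq k q U (Kf k q U) - ∑ e, dv Kd U e)| ≤
      4 * (C7 + 4 * (N ^ 2 * (2 * (C8 * (1 + N)) + C5 * C2))) * P / Real.sqrt β *
        (1 + (β * Sq k q U) ^ 3) := by
    intro U
    have hS : 0 ≤ Sq k q U := by
      have := two_Sq_nonneg k q U
      linarith
    obtain ⟨n1, n2⟩ := num1 hβ hS
    change ss k q U ≤ _ at n1
    change β * ss k q U ^ 3 ≤ _ at n2
    set R : ℝ := 4 / Real.sqrt β * (1 + (β * Sq k q U) ^ 3) with hR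
    have hR0 : 0 ≤ R := (ss_nonneg k q U).trans n1
    have m1 := h7 n L l k hk q U
    have m2 := hdv U
    have m3 : β * |dSq k q U (Kf k q U) - 2 * Sq k q U| ≤ C7 * P * R := by
      calc β * |dSq k q U (Kf k q U) - 2 * Sq k q U| ≤ β * (C7 * v ^ p7 * ss k q U ^ 3) :=
            mul_le_mul_of_nonneg_left m1 (by linarith)
        _ = C7 * v ^ p7 * (β * ss k q U ^ 3) := by ring
        _ ≤ C7 * P * R := by
          have := hvp p7 (by omega)
          have h0 : 0 ≤ ss k q U := ss_nonneg k q U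
          gcongr
    have m4 : |∑ e, dv Kd U e - 3 * v * (N ^ 2 - 1)| ≤
        4 * (N ^ 2 * (2 * (C8 * (1 + N)) + C5 * C2)) * P * R := by
      have w1 : v * v ^ p8 ≤ P := by
        rw [← pow_succ']
        exact hvp _ (by omega)
      have w2 : v * (v ^ p5 * v ^ p2) ≤ P := by
        rw [← pow_add, ← pow_succ']
        exact hvp _ (by omega)
      calc |∑ e, dv Kd U e - 3 * v * (N ^ 2 - 1)| ≤
            4 * v * (N ^ 2 * (2 * (C8 * v ^ p8 * (1 + N)) + C5 * v ^ p5 * (C2 * v ^ p2))) *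
              ss k q U := m2
        _ = 4 * (N ^ 2 * (2 * (C8 * (1 + N)) * (v * v ^ p8) + C5 * C2 * (v * (v ^ p5 * v ^ p2)))) *
              ss k q U := by ring
        _ ≤ 4 * (N ^ 2 * (2 * (C8 * (1 + N)) * P + C5 * C2 * P)) * R := by
          have h0 : 0 ≤ ss k q U := ss_nonneg k q U
          gcongr
        _ = _ := by ring
    have m5 : (2 * β * Sq k q U - 3 * v * (N ^ 2 - 1)) -
        (β * dSq k q U (Kf k q U) - ∑ e, dv Kd U e) =
        -(β * (dSq k q U (Kf k q U) - 2 * Sq k q U)) +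
          (∑ e, dv Kd U e - 3 * v * (N ^ 2 - 1)) := by ring
    rw [m5]
    refine (abs_add_le _ _).trans ?_
    rw [abs_neg, abs_mul, abs_of_nonneg (show (0 : ℝ) ≤ β by linarith)]
    calc _ ≤ C7 * P * R + 4 * (N ^ 2 * (2 * (C8 * (1 + N)) + C5 * C2)) * P * R :=
          add_le_add m3 m4
      _ = _ := by rw [hR]; ring
  -- integrability
  have hS := cont_Sq (N := N) (n := n) (L := L) (l := l) k q
  have hwc : Continuous fun U : Link n L l → SU N => Real.exp (-(β * Sq k q U)) :=
    Real.continuous_exp.comp ((continuous_const.mul hS).neg)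
  have hint : ∀ {f : (Link n L l → SU N) → ℝ}, Continuous f →
      Integrable f (Measure.pi fun _ : Link n L l => μ) := fun hf =>
    hf.integrable_of_hasCompactSupport (HasCompactSupport.of_compactSpace _)
  have i1 : Integrable (fun U : Link n L l → SU N =>
      (2 * β * Sq k q U - 3 * v * (N ^ 2 - 1)) * Real.exp (-(β * Sq k q U)))
      (Measure.pi fun _ : Link n L l => μ) :=
    hint (((continuous_const.mul hS).sub continuous_const).mul hwc)
  have i3 : Integrable (fun U : Link n L l → SU N => (1 + (β * Sq k q U) ^ 3) *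
      Real.exp (-(β * Sq k q U))) (Measure.pi fun _ : Link n L l => μ) :=
    hint ((continuous_const.add ((continuous_const.mul hS).pow 3)).mul hwc)
  have hdc : Continuous fun U : Link n L l → SU N => β * dSq k q U (Kf k q U) :=
    continuous_const.mul (cont_dSq k q fun e => cont_Kf k q e)
  have i2 : Integrable (fun U : Link n L l → SU N =>
      (β * dSq k q U (Kf k q U) - ∑ e, dv Kd U e) * Real.exp (-(β * Sq k q U)))
      (Measure.pi fun _ : Link n L l => μ) := by
    have hm : Measurable fun U : Link n L l → SU N =>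
        (β * dSq k q U (Kf k q U) - ∑ e, dv Kd U e) * Real.exp (-(β * Sq k q U)) :=
      (hdc.measurable.sub hmeas).mul hwc.measurable
    refine Integrable.mono' (i1.norm.add (i3.const_mul
      (4 * (C7 + 4 * (N ^ 2 * (2 * (C8 * (1 + N)) + C5 * C2))) * P / Real.sqrt β)))
      hm.aestronglyMeasurable (Eventually.of_forall fun U => ?_)
    have h1 := (abs_sub_comm _ _).trans_le (hpt U)
    have hw := Real.exp_pos (-(β * Sq k q U))
    simp only [Pi.add_apply, Real.norm_eq_abs, abs_mul, abs_of_pos hw]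
    have h2 := abs_sub_abs_le_abs_sub (β * dSq k q U (Kf k q U) - ∑ e, dv Kd U e)
      (2 * β * Sq k q U - 3 * v * (N ^ 2 - 1))
    have h3 := mul_le_mul_of_nonneg_right (h2.trans h1) hw.le
    linarith
  have key : ∫ U, (2 * β * Sq k q U - 3 * v * (N ^ 2 - 1)) * Real.exp (-(β * Sq k q U))
      ∂(Measure.pi fun _ : Link n L l => μ) =
      ∫ U, ((2 * β * Sq k q U - 3 * v * (N ^ 2 - 1)) -
        (β * dSq k q U (Kf k q U) - ∑ e, dv Kd U e)) * Real.exp (-(β * Sq k q U))
        ∂(Measure.pi fun _ : Link n L l => μ) := by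
    have := integral_sub i1 i2
    rw [hsd, sub_zero] at this
    rw [← this]
    refine integral_congr_ae (Eventually.of_forall fun U => ?_)
    simp only
    ring
  rw [key, ← integral_const_mul]
  refine (abs_integral_le_integral_abs).trans (integral_mono_of_nonneg
    (Eventually.of_forall fun U => abs_nonneg _) (i3.const_mul _)
    (Eventually.of_forall fun U => ?_))
  have hw := Real.exp_pos (-(β * Sq k q U))
  simp only [abs_mul, abs_of_pos hw]
  rw [← mul_assoc]
  exact mul_le_mul_of_nonneg_right (hpt U) hw.le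

end

end Run7.h630.QC
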