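import Pool.Agent.Run7.h630.WL.Defs

/-!
# The mass gap of the infinite volume theory
-/

open MeasureTheory

namespace Run7.h630.QC

open Run7.h4.YM Run7.h630.WL

/-- the translation of a configuration by `t` in the direction `0` (the time) -/
def tshift {N l : ℕ} (t : ℕ) (V : LinkZ l → SU N) : LinkZ l → SU N :=
  fun e => V (e.1, e.2.1 + t, e.2.2)

/-- `F` is a local observable of the time slice zero: it is continuous and depends only on the
links at time zero, of directions other than that of the time, within a distance `R` -/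
def IsObs {N l : ℕ} (F : (LinkZ l → SU N) → ℝ) : Prop :=
  Continuous F ∧ ∃ R : ℕ, ∀ V V' : LinkZ l → SU N,
    (∀ e : LinkZ l, e.1 ≠ 0 → e.2.1 = 0 → |e.2.2.1| ≤ R → V e = V' e) → F V = F V'

/-- the mass gap is at least `m`: the correlations of all local observables of the time slice zero
and of their translates in time decay at least like `exp (- m t)` -/
def HasGap {N l : ℕ} [MeasurableSpace (SU N)] (ν : Measure (LinkZ l → SU N)) (m : ℝ) : Prop :=
  ∀ F F' : (LinkZ l → SU N) → ℝ, IsObs F → IsObs F' → ∀ C C' : ℝ,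
    (∀ V, |F V| ≤ C) → (∀ V, |F' V| ≤ C') → ∀ t : ℕ, 1 ≤ t →
      |∫ V, F V * F' (tshift t V) ∂ν - (∫ V, F V ∂ν) * ∫ V, F' V ∂ν| ≤
        2 * C * C' * Real.exp (-(m * t))

end Run7.h630.QC
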