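import Pool.Agent.Run7.h630.QC.Iface
import Pool.Agent.Run7.h630.QC.Defs
import Pool.Agent.Run7.h630.WL.Lim

/-!
# The criterion at polynomially large `β`, and the gap: interface
-/

open MeasureTheory Matrix Filter Topology
open Pool.Agent.Run7.h897 (TW.XT TW.rate TW.Cn TW.CrS)
open Pool.Agent.Run7.h897.ST (S4 S6 mu6)
open Pool.Agent.Run7.h871.TC (wE)
open Pool.Agent.Run7.h630.R2 (Zt)
open Run7.h4.YM Run7.h630.WL

namespace Run7.h630.QC

noncomputable section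

/-- Q13: the two models of the partition function (`cfE`, as in `Run7.h630.WL.expect_eq` and
`Pool.Agent.Run7.h897.ST.act_eq`) -/
def S_Q13 : Prop := ∀ (N n L l k : ℕ) [NeZero N] [NeZero n] [NeZero L] [NeZero l]
  [MeasurableSpace (S4 N)] [BorelSpace (S4 N)] [MeasurableSpace (S6 N)] [BorelSpace (S6 N)]
  (μ : Measure (SU N)) [IsProbabilityMeasure μ] [μ.IsHaarMeasure] (β : ℝ),
  Zs μ n L l k β = Zt (mu6 μ) l k β n L

/-- Q15: the criterion at polynomially large `β`, from Q13, Q14, `zt_ratio`, `det_sharp` (compare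
`Pool.Agent.Run7.h871.TC.crit`): take `a` of order `l log l`, so that
`exp (- 2 m a / l) ≥ l^(-p')`; `l * rate l N → 2 π / N`. -/
def S_Q15 : Prop := ∀ (N k : ℕ) [NeZero N], 2 ≤ N → Nat.Coprime k N →
  ∀ [MeasurableSpace (S4 N)] [BorelSpace (S4 N)] [MeasurableSpace (S6 N)] [BorelSpace (S6 N)]
  (μ : Measure (SU N)) [IsProbabilityMeasure μ] [μ.IsHaarMeasure] (m : ℝ), 0 < m →
  m < 2 * Real.pi / N → ∃ p l₀ : ℕ, ∀ (l : ℕ) [NeZero l], l₀ ≤ l → ∀ β : ℝ, (l : ℝ) ^ p ≤ β →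
  ∃ a0 : ℕ, 1 ≤ a0 ∧ ∃ s : ℝ, 0 < s ∧ s ≤ 1 / 2 ∧
    s ^ (1 / (2 * a0) : ℝ) = Real.exp (-(m / l)) ∧ TW.CrS (mu6 μ) (wE N l k β) a0 s

/-- Q16: the criterion implies the existence of the thermodynamic limit and the gap (compare
`Pool.Agent.Results.MP_7f377f_mp.TwistedMassGap.gap` and `Run7.h630.WL.cau`, `exists_limit`) -/
def S_Q16 : Prop := ∀ (N l k : ℕ) [NeZero N] [NeZero l], 2 ≤ N → Nat.Coprime k N →
  ∀ [MeasurableSpace (S4 N)] [BorelSpace (S4 N)] [MeasurableSpace (S6 N)] [BorelSpace (S6 N)]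
  (μ : Measure (SU N)) [IsProbabilityMeasure μ] [μ.IsHaarMeasure] (β m : ℝ) (a0 : ℕ), 1 ≤ a0 →
  ∀ s : ℝ, 0 < s → s ≤ 1 / 2 → s ^ (1 / (2 * a0) : ℝ) = Real.exp (-m) →
  TW.CrS (mu6 μ) (wE N l k β) a0 s →
  (∃ ν : Measure (LinkZ l → SU N), IsLimit k μ β ν) ∧
  ∀ ν : Measure (LinkZ l → SU N), IsLimit k μ β ν → HasGap ν m

end

end Run7.h630.QC
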