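import Pool.Agent.Run7.h630.MQ.Iface

/-!
# Quantitative asymptotics of the partition functions: interface

`SU(N)` lattice gauge theory on the torus `Z/n x Z/L x (Z/l)²`, with the 't Hooft flux `k` in the
plane `(2,3)` and centre elements `exp (2 π i q(u) / N)` on the plaquettes `(0,1)` over the base
point `u`. The aim: `β E S = 3 V (N² - 1) / 2 + O(V^p β^(-1/2) (1 + log β)^3)`, `V` the number of
the sites, for the measure summed over all `q`; by the Schwinger-Dyson equation of a vector field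
which scales the fluctuations (virial theorem).
-/

open MeasureTheory Matrix Filter Topology
open scoped Matrix.Norms.Frobenius ComplexConjugate

namespace Run7.h630.QC

open Run7.h4.YM Run7.h630.MQ

noncomputable section

variable {N n L l : ℕ}

/-- the colours -/
abbrev Col (N : ℕ) : Type := Fin N × Fin N

/-- the loop in the direction `3` based at `x` -/
def lq (U : Link n L l → SU N) (x : Site n L l) : SU N :=
  ((List.range l).map fun t : ℕ => U (3, x + t • dir 3)).prod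

/-- the dressing of the colour `α` -/
def Dr (α : Col N) (U : Link n L l → SU N) (x : Site n L l) : SU N :=
  lp U x ^ (α.1 : ℕ) * lq U x ^ (α.2 : ℕ)

/-- the twist of the plaquette `(i, j)` at `x`, `i < j` -/
def z0 (N k : ℕ) (q : ZMod n × ZMod L → ZMod N) (x : Site n L l) (i j : Fin 4) : ℂ :=
  if i = 0 ∧ j = 1 then om N 1 ^ (q (x.1, x.2.1)).val
  else if i = 2 ∧ j = 3 ∧ x.2.2 = 0 then om N k else 1

/-- the twist of the plaquette `(i, j)` at `x` -/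
def zz (N k : ℕ) (q : ZMod n × ZMod L → ZMod N) (x : Site n L l) (i j : Fin 4) : ℂ :=
  if i < j then z0 N k q x i j else conj (z0 N k q x j i)

/-- the curvature -/
def Fc (k : ℕ) (q : ZMod n × ZMod L → ZMod N) (U : Link n L l → SU N) (x : Site n L l)
    (i j : Fin 4) : Mt N := zz N k q x i j • (plaq U x i j).1 - 1

/-- the action -/
def Sq [NeZero n] [NeZero L] [NeZero l] (k : ℕ) (q : ZMod n × ZMod L → ZMod N)
    (U : Link n L l → SU N) : ℝ :=
  ∑ x : Site n L l, ∑ i : Fin 4, ∑ j ∈ Finset.Ioi i,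
    ((N : ℝ) - (zz N k q x i j * trace (plaq U x i j).1).re)

/-- the size of the curvature: `ss² = ∑_{i<j} ‖Fc‖²`, so `‖Fc x i j‖ ≤ ss` -/
def ss [NeZero n] [NeZero L] [NeZero l] (k : ℕ) (q : ZMod n × ZMod L → ZMod N)
    (U : Link n L l → SU N) : ℝ := Real.sqrt (2 * Sq k q U)

/-- the number of the sites -/
def vol (n L l : ℕ) : ℝ := n * L * l ^ 2

/-- the transport phase of the dressing of the colour `α` along the direction `j` -/
def rh (k : ℕ) (α : Col N) (x : Site n L l) (j : Fin 4) : ℂ :=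
  if j = 2 ∧ x.2.2.1 = 0 then conj (om N k) ^ (α.2 : ℕ)
  else if j = 3 ∧ x.2.2.2 = 0 then om N k ^ (α.1 : ℕ) else 1

/-- the twisted difference -/
def nb (k : ℕ) (α : Col N) (j : Fin 4) (h : Site n L l → ℂ) (x : Site n L l) : ℂ :=
  rh k α x j * h (x + dir j) - h x

/-- the adjoint of the twisted difference -/
def nbs (k : ℕ) (α : Col N) (j : Fin 4) (h : Site n L l → ℂ) (x : Site n L l) : ℂ :=
  conj (rh k α (x - dir j) j) * h (x - dir j) - h x

/-- the twisted Laplacian -/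
def La (n L l : ℕ) (k : ℕ) (α : Col N) : (Site n L l → ℂ) →ₗ[ℂ] (Site n L l → ℂ) where
  toFun h := fun x => ∑ j : Fin 4, nbs k α j (nb k α j h) x
  map_add' f h := by
    funext x
    simp only [nb, nbs, Pi.add_apply, ← Finset.sum_add_distrib]
    exact Finset.sum_congr rfl fun j _ => by ring
  map_smul' c h := by
    funext x
    simp only [nb, nbs, Pi.smul_apply, smul_eq_mul, RingHom.id_apply, Finset.mul_sum]
    exact Finset.sum_congr rfl fun j _ => by ring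

/-- its inverse (for `α ≠ 0`) -/
def Gr (n L l : ℕ) (k : ℕ) (α : Col N) : (Site n L l → ℂ) →ₗ[ℂ] (Site n L l → ℂ) :=
  Ring.inverse (M₀ := Module.End ℂ (Site n L l → ℂ)) (La n L l k α)

/-- the curvature of the colour `α` -/
def ph2 (k : ℕ) (q : ZMod n × ZMod L → ZMod N) (α : Col N) (U : Link n L l → SU N) (i j : Fin 4)
    (x : Site n L l) : ℂ := trace ((Dr α U x).1 * Fc k q U x i j)

/-- its complex conjugate, antisymmetric in `i`, `j` -/
def ps (k : ℕ) (q : ZMod n × ZMod L → ZMod N) (α : Col N) (U : Link n L l → SU N) (i j : Fin 4)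
    (x : Site n L l) : ℂ :=
  if i < j then conj (ph2 k q α U i j x) else if j < i then -conj (ph2 k q α U j i x) else 0

/-- the potential of an antisymmetric two-form -/
def pot (k : ℕ) (α : Col N) (f : Fin 4 → Fin 4 → Site n L l → ℂ) (j : Fin 4) :
    Site n L l → ℂ := Gr n L l k α fun x => ∑ i : Fin 4, nbs k α i (f i j) x

/-- a vector field with the coefficients `a` -/
def Ka [NeZero N] (a : Col N → Fin 4 → Site n L l → ℂ) (U : Link n L l → SU N)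
    (e : Link n L l) : Mt N :=
  pr (∑ α ∈ (Finset.univ : Finset (Col N)).erase (0, 0), a α e.1 e.2 • (Dr α U e.2).1)

/-- the vector field which scales the fluctuations -/
def Kf [NeZero N] (k : ℕ) (q : ZMod n × ZMod L → ZMod N) (U : Link n L l → SU N)
    (e : Link n L l) : Mt N :=
  Ka (fun α j x => (-(1 / N) : ℂ) * pot k α (ps k q α U) j x) U e

/-- the derivative of the plaquette variable in the direction `K`, the links moving by
`U e ↦ exp (t K e) U e` -/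
def dp (U : Link n L l → SU N) (K : Link n L l → Mt N) (x : Site n L l) (i j : Fin 4) : Mt N :=
  (K (i, x) + (U (i, x)).1 * K (j, x + dir i) * (U (i, x)).1ᴴ) * (plaq U x i j).1 -
    (plaq U x i j).1 * ((U (j, x)).1 * K (i, x + dir j) * (U (j, x)).1ᴴ + K (j, x))

/-- the derivative of the action in the direction `K` -/
def dSq [NeZero n] [NeZero L] [NeZero l] (k : ℕ) (q : ZMod n × ZMod L → ZMod N)
    (U : Link n L l → SU N) (K : Link n L l → Mt N) : ℝ :=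
  -∑ x : Site n L l, ∑ i : Fin 4, ∑ j ∈ Finset.Ioi i, (zz N k q x i j * trace (dp U K x i j)).re

/-- the flow -/
def fg (K : Link n L l → Mt N) (t : ℝ) (U : Link n L l → SU N) : Link n L l → SU N := fun e =>
  ex t (K e) * U e

/-- skew-Hermitian matrices with trace zero -/
def SkT (A : Mt N) : Prop := Aᴴ = -A ∧ trace A = 0

/-- the matrix units -/
def Eu (a b : Fin N) : Mt N := Matrix.single a b 1

/-- the diagonal of the kernel -/
def gg (k : ℕ) (α : Col N) (i : Fin 4) (x : Site n L l) : ℂ :=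
  ∑ m ∈ (Finset.univ : Finset (Fin 4)).erase i,
    nbs k α m (Gr n L l k α (nb k α m (Pi.single x 1))) x

/-- the leading part of the derivative of `Kf` at the link `e` in the direction `A` at `e` -/
def Kl [NeZero N] (k : ℕ) (U : Link n L l → SU N) (e : Link n L l) (A : Mt N) : Mt N :=
  pr (∑ α ∈ (Finset.univ : Finset (Col N)).erase (0, 0),
    (-(1 / N) * gg k α e.1 e.2 * conj (trace ((Dr α U e.2).1 * A)) : ℂ) • (Dr α U e.2).1)

/-- Q1: transport of the dressing -/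
def S_Q1 : Prop := ∀ (N n L l k : ℕ) [NeZero N] [NeZero n] [NeZero L] [NeZero l]
  (q : ZMod n × ZMod L → ZMod N) (U : Link n L l → SU N) (α : Col N) (x : Site n L l)
  (j : Fin 4),
  ‖(U (j, x)).1 * (Dr α U (x + dir j)).1 * (U (j, x)).1ᴴ - rh k α x j • (Dr α U x).1‖ ≤
    2 * N * l * ss k q U

/-- Q2: the dressings are nearly orthogonal (transport once around the two directions of the
compact torus: `P D_α P⁻¹ ≈ conj(om)^(α.2) D_α`, `Q D_α Q⁻¹ ≈ om^(α.1) D_α`) -/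
def S_Q2 : Prop := ∀ N : ℕ, [NeZero N] → ∃ C : ℝ, ∃ p : ℕ, 0 < C ∧ ∀ (n L l k : ℕ) [NeZero n]
  [NeZero L] [NeZero l], Nat.Coprime k N → ∀ (q : ZMod n × ZMod L → ZMod N)
  (U : Link n L l → SU N) (α α' : Col N) (x : Site n L l), α ≠ α' →
  ‖trace ((Dr α U x).1 * (Dr α' U x).1ᴴ)‖ ≤ C * l ^ p * ss k q U

/-- Q3: near completeness (`‖A Aᴴ - N‖_HS = ‖Aᴴ A - N‖_HS` for the `N² x N²` matrix `A` with the
rows `Dr α`) -/
def S_Q3 : Prop := ∀ N : ℕ, [NeZero N] → ∃ C : ℝ, ∃ p : ℕ, 0 < C ∧ ∀ (n L l k : ℕ) [NeZero n]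
  [NeZero L] [NeZero l], Nat.Coprime k N → ∀ (q : ZMod n × ZMod L → ZMod N)
  (U : Link n L l → SU N) (x : Site n L l) (M : Mt N),
  |∑ α : Col N, ‖trace ((Dr α U x).1 * M)‖ ^ 2 - N * ‖M‖ ^ 2| ≤ C * l ^ p * ss k q U * ‖M‖ ^ 2

/-- Q3b: the trace of the curvature is quadratically small -/
def S_Q3b : Prop := ∀ N : ℕ, [NeZero N] → ∃ C : ℝ, 0 < C ∧ ∀ (z : ℂ), z ^ N = 1 → ∀ g : SU N,
  ‖trace (z • g.1 - 1)‖ ≤ C * ‖z • g.1 - 1‖ ^ 2

/-- Q4: the Bianchi identity. With `R_ij = plaq U x i j` and `R^(m) = U_m R(x + m) U_m⁻¹`: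
`R_ij R_im^(j) R_jm R_ji^(m) R_mi R_mj^(i) = 1`, and the twists cancel. -/
def S_Q4 : Prop := ∀ N : ℕ, [NeZero N] → ∃ C : ℝ, ∃ p : ℕ, 0 < C ∧ ∀ (n L l k : ℕ) [NeZero n]
  [NeZero L] [NeZero l] (q : ZMod n × ZMod L → ZMod N) (U : Link n L l → SU N) (α : Col N)
  (x : Site n L l) (i j m : Fin 4), i ≠ j → j ≠ m → m ≠ i →
  ‖nb k α m (ps k q α U i j) x + nb k α i (ps k q α U j m) x + nb k α j (ps k q α U m i) x‖ ≤
    C * l ^ p * ss k q U ^ 2

/-- Q5a: the twisted Laplacian is invertible (`|conj(om)^(α.2) - 1| ‖h‖ ≤ l ‖nb 2 h‖`, similarly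
for the direction `3`), and its inverse is bounded -/
def S_Q5a : Prop := ∀ N : ℕ, [NeZero N] → ∃ C : ℝ, 0 < C ∧ ∀ (n L l k : ℕ) [NeZero n]
  [NeZero L] [NeZero l], Nat.Coprime k N → ∀ α : Col N, α ≠ (0, 0) →
  (∀ h, La n L l k α (Gr n L l k α h) = h) ∧ (∀ h, Gr n L l k α (La n L l k α h) = h) ∧
  ∀ h : Site n L l → ℂ, Real.sqrt (∑ x, ‖Gr n L l k α h x‖ ^ 2) ≤
    C * l ^ 2 * Real.sqrt (∑ x, ‖h x‖ ^ 2)

/-- Q5b: Hodge theory. The differences commute, so with `a_j = G ∑_i nb_i^* f_ij`,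
`⟨d a, f⟩ = ⟨G d d^* f, f⟩` and `d d^* f = La f - ∑ nb_m^* b_mij`, `b` the Bianchi defect. -/
def S_Q5b : Prop := ∀ N : ℕ, [NeZero N] → ∃ C : ℝ, ∃ p : ℕ, 0 < C ∧ ∀ (n L l k : ℕ) [NeZero n]
  [NeZero L] [NeZero l], Nat.Coprime k N → ∀ α : Col N, α ≠ (0, 0) →
  ∀ (f : Fin 4 → Fin 4 → Site n L l → ℂ) (M ε : ℝ), (∀ i j x, f j i x = -f i j x) →
  (∀ i j x, ‖f i j x‖ ≤ M) → (∀ i j m x, i ≠ j → j ≠ m → m ≠ i →
    ‖nb k α m (f i j) x + nb k α i (f j m) x + nb k α j (f m i) x‖ ≤ ε) →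
  (∀ j x, ‖pot k α f j x‖ ≤ C * vol n L l ^ p * M) ∧
  ‖∑ x : Site n L l, ∑ i : Fin 4, ∑ j ∈ Finset.Ioi i,
      ((nb k α i (pot k α f j) x - nb k α j (pot k α f i) x) * conj (f i j x) -
        ((‖f i j x‖ ^ 2 : ℝ) : ℂ))‖ ≤ C * vol n L l ^ p * (ε * M)

/-- Q5c: the trace of the kernel, and its size -/
def S_Q5c : Prop := ∀ N : ℕ, [NeZero N] → ∃ C : ℝ, ∃ p : ℕ, 0 < C ∧ ∀ (n L l k : ℕ) [NeZero n]
  [NeZero L] [NeZero l], Nat.Coprime k N → ∀ α : Col N, α ≠ (0, 0) →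
  (∑ x : Site n L l, ∑ i : Fin 4, gg k α i x = ((3 * vol n L l : ℝ) : ℂ)) ∧
  (∀ i (x : Site n L l), ‖gg k α i x‖ ≤ C * vol n L l ^ p) ∧
  ∀ (h : Site n L l → ℂ) (M : ℝ), (∀ x, ‖h x‖ ≤ M) →
    ∀ x, ‖Gr n L l k α h x‖ ≤ C * vol n L l ^ p * M

/-- Q6: linearisation of the derivative of the action along a vector field `Ka a` -/
def S_Q6 : Prop := ∀ N : ℕ, [NeZero N] → ∃ C : ℝ, ∃ p : ℕ, 0 < C ∧ ∀ (n L l k : ℕ) [NeZero n]
  [NeZero L] [NeZero l] (q : ZMod n × ZMod L → ZMod N) (U : Link n L l → SU N)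
  (a : Col N → Fin 4 → Site n L l → ℂ) (M : ℝ), (∀ α j x, ‖a α j x‖ ≤ M) →
  |dSq k q U (Ka a U) + ∑ α ∈ (Finset.univ : Finset (Col N)).erase (0, 0),
      ∑ x : Site n L l, ∑ i : Fin 4, ∑ j ∈ Finset.Ioi i,
        ((nb k α i (a α j) x - nb k α j (a α i) x) * ph2 k q α U i j x).re| ≤
    C * vol n L l ^ p * M * ss k q U ^ 2

/-- Q7: the virial identity (from Q2, ..., Q6) -/
def S_Q7 : Prop := ∀ N : ℕ, [NeZero N] → ∃ C : ℝ, ∃ p : ℕ, 0 < C ∧ ∀ (n L l k : ℕ) [NeZero n]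
  [NeZero L] [NeZero l], Nat.Coprime k N → ∀ (q : ZMod n × ZMod L → ZMod N)
  (U : Link n L l → SU N),
  |dSq k q U (Kf k q U) - 2 * Sq k q U| ≤ C * vol n L l ^ p * ss k q U ^ 3

/-- Q8: the derivative of `Kf` at the link `e` along the flow of the link `e` -/
def S_Q8 : Prop := ∀ N : ℕ, [NeZero N] → ∃ C : ℝ, ∃ p : ℕ, 0 < C ∧ ∀ (n L l k : ℕ) [NeZero n]
  [NeZero L] [NeZero l], Nat.Coprime k N → ∀ (q : ZMod n × ZMod L → ZMod N),
  ∃ Kd : (Link n L l → SU N) → Link n L l → Mt N → Mt N,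
    ∀ (U : Link n L l → SU N) (e : Link n L l) (A : Mt N), SkT A →
    HasDerivAt (fun t : ℝ => Kf k q (fg (Pi.single e A) t U) e) (Kd U e A) 0 ∧
    ‖Kd U e A - Kl k U e A‖ ≤ C * vol n L l ^ p * ss k q U * ‖A‖

/-- Q9: linear algebra of the divergence -/
def S_Q9 : Prop := ∀ (N : ℕ) [NeZero N] (D : Mt N) (g : ℂ), D * Dᴴ = 1 →
  ∑ a : Fin N, ∑ b : Fin N,
    ((pr ((-(1 / N) * g * conj (trace (D * pr (Eu a b))) : ℂ) • D) a b).re +
      (pr ((-(1 / N) * g * conj (trace (D * pr (Complex.I • Eu a b))) : ℂ) • D) a b).im) =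
    g.re * (1 - ‖trace D‖ ^ 2 / N ^ 2)

/-- Q10: the Schwinger-Dyson equation for a general vector field -/
def S_Q10 : Prop := ∀ (N n L l k : ℕ) [NeZero N] [NeZero n] [NeZero L] [NeZero l]
  [MeasurableSpace (SU N)] [BorelSpace (SU N)] (μ : Measure (SU N)) [IsProbabilityMeasure μ]
  [μ.IsHaarMeasure] (q : ZMod n × ZMod L → ZMod N) (β : ℝ)
  (X : (Link n L l → SU N) → Link n L l → Mt N)
  (Kd : (Link n L l → SU N) → Link n L l → Mt N → Mt N) (C : ℝ),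
  (∀ e, Continuous fun U => X U e) → (∀ U e, SkT (X U e)) →
  (∀ U e A, SkT A →
    HasDerivAt (fun t : ℝ => X (fg (Pi.single e A) t U) e) (Kd U e A) 0 ∧
    ‖Kd U e A‖ ≤ C * ‖A‖) →
  Measurable (fun U => ∑ e, ∑ a : Fin N, ∑ b : Fin N,
    (((Kd U e (pr (Eu a b))) a b).re + ((Kd U e (pr (Complex.I • Eu a b))) a b).im)) ∧
  ∫ U, (β * dSq k q U (X U) - ∑ e, ∑ a : Fin N, ∑ b : Fin N,
    (((Kd U e (pr (Eu a b))) a b).re + ((Kd U e (pr (Complex.I • Eu a b))) a b).im)) *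
      Real.exp (-(β * Sq k q U)) ∂(Measure.pi fun _ : Link n L l => μ) = 0

/-- the partition function, summed over the centre elements -/
def Zs [MeasurableSpace (SU N)] (μ : Measure (SU N)) (n L l k : ℕ) [NeZero N] [NeZero n]
    [NeZero L] [NeZero l] (β : ℝ) : ℝ :=
  ∑ q : ZMod n × ZMod L → ZMod N,
    ∫ U, Real.exp (-(β * Sq k q U)) ∂(Measure.pi fun _ : Link n L l => μ)

/-- Q11: the energy for fixed `q` (from Q2, Q5c, Q7, Q8, Q9, Q10) -/
def S_Q11 : Prop := ∀ N : ℕ, [NeZero N] → ∃ C : ℝ, ∃ p : ℕ, 0 < C ∧ ∀ (n L l k : ℕ) [NeZero n]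
  [NeZero L] [NeZero l], Nat.Coprime k N → ∀ [MeasurableSpace (SU N)] [BorelSpace (SU N)]
  (μ : Measure (SU N)) [IsProbabilityMeasure μ] [μ.IsHaarMeasure]
  (q : ZMod n × ZMod L → ZMod N) (β : ℝ), 1 ≤ β →
  |∫ U, (2 * β * Sq k q U - 3 * vol n L l * (N ^ 2 - 1)) * Real.exp (-(β * Sq k q U))
      ∂(Measure.pi fun _ : Link n L l => μ)| ≤
    C * vol n L l ^ p / Real.sqrt β * ∫ U, (1 + (β * Sq k q U) ^ 3) *
      Real.exp (-(β * Sq k q U)) ∂(Measure.pi fun _ : Link n L l => μ)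

/-- Q12: the third moment of the energy, on even tori. Proof: `E exp (β S / 2) = Z(β/2) / Z(β)`,
`Z(β/2) ≤ N^(n L)`, `Z(β) ≥ exp (- C V (1 + log β))` by `Run7.h4.YM.ZZ_lower` with `η² = 1 / β` and
the bound of the measure of the balls; `E x³ ≤ 64 M³ + 384` if `E exp (x/2) ≤ exp M`. -/
def S_Q12 : Prop := ∀ (N k : ℕ) [NeZero N], Nat.Coprime k N → ∀ [MeasurableSpace (SU N)]
  [BorelSpace (SU N)] (μ : Measure (SU N)) [IsProbabilityMeasure μ] [μ.IsHaarMeasure],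
  ∃ C : ℝ, 0 < C ∧ ∀ (m m' l : ℕ) [NeZero m] [NeZero m'] [NeZero (2 * m)] [NeZero (2 * m')]
    [NeZero l] (β : ℝ), 1 ≤ β →
    ∑ q : ZMod (2 * m) × ZMod (2 * m') → ZMod N,
      ∫ U, (β * Sq k q U) ^ 3 * Real.exp (-(β * Sq k q U))
        ∂(Measure.pi fun _ : Link (2 * m) (2 * m') l => μ) ≤
      C * (vol (2 * m) (2 * m') l * (1 + Real.log β)) ^ 3 * Zs μ (2 * m) (2 * m') l k β

/-- Q14: the ratio of the partition functions (from Q11, Q12): with `n' = 2 n`, `V' = 2 V`,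
`|(log (Z(n') / Z(n)²))'| ≤ C V^p β^(-3/2) (1 + log β)³ ≤ C' V^p β^(-5/4)`. -/
def S_Q14 : Prop := ∀ (N k : ℕ) [NeZero N], Nat.Coprime k N → ∀ [MeasurableSpace (SU N)]
  [BorelSpace (SU N)] (μ : Measure (SU N)) [IsProbabilityMeasure μ] [μ.IsHaarMeasure],
  ∃ C : ℝ, ∃ p : ℕ, 0 < C ∧ ∀ (m m' l : ℕ) [NeZero m] [NeZero m'] [NeZero (2 * m)]
    [NeZero (2 * (2 * m))] [NeZero (2 * m')] [NeZero l] (r : ℝ), 0 < r →
    Tendsto (fun β => Zs μ (2 * (2 * m)) (2 * m') l k β / Zs μ (2 * m) (2 * m') l k β ^ 2) atTop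
      (𝓝 r) → ∀ β : ℝ, 1 ≤ β →
    |Real.log (Zs μ (2 * (2 * m)) (2 * m') l k β / Zs μ (2 * m) (2 * m') l k β ^ 2) -
      Real.log r| ≤ C * vol (2 * m) (2 * m') l ^ p * β ^ (-(1 / 4) : ℝ)

end

end Run7.h630.QC
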